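import Mathlib

set_option autoImplicit false
open Matrix Finset

namespace Pool.Agent.Results.MP_4a3f67_an.SixMinimizers

/-- the quadratic form `xᵀ A x` -/
noncomputable def quad {n : ℕ} (A : Matrix (Fin n) (Fin n) ℝ) (x : Fin n → ℝ) : ℝ := x ⬝ᵥ A *ᵥ x

/-- feasible set of (QQ2) -/
def feasible {n : ℕ} (A₁ A₂ : Matrix (Fin n) (Fin n) ℝ) : Set (Fin n → ℝ) :=
  {x | quad A₁ x = 1 ∧ quad A₂ x ≤ 1}

/-- strict local minimizer of (QQ2) -/
def IsStrictLocalMinimizer {n : ℕ} (A₀ A₁ A₂ : Matrix (Fin n) (Fin n) ℝ) (x : Fin n → ℝ) : Prop :=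
  x ∈ feasible A₁ A₂ ∧ ∃ ε > 0, ∀ y ∈ feasible A₁ A₂, 0 < ‖y - x‖ → ‖y - x‖ < ε →
    quad A₀ x < quad A₀ y

/-- `x` is not a global minimizer of (QQ2) -/
def IsNonGlobal {n : ℕ} (A₀ A₁ A₂ : Matrix (Fin n) (Fin n) ℝ) (x : Fin n → ℝ) : Prop :=
  ∃ y ∈ feasible A₁ A₂, quad A₀ y < quad A₀ x

section general

variable {n : ℕ}

theorem continuous_quad (A : Matrix (Fin n) (Fin n) ℝ) : Continuous (quad A) := by
  unfold quad
  fun_prop

theorem quad_add (A : Matrix (Fin n) (Fin n) ℝ) (hA : A.IsSymm) (x d : Fin n → ℝ) :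
    quad A (x + d) = quad A x + 2 * (A *ᵥ x ⬝ᵥ d) + quad A d := by
  unfold quad
  rw [mulVec_add, add_dotProduct, dotProduct_add, dotProduct_add]
  have h : x ⬝ᵥ A *ᵥ d = A *ᵥ x ⬝ᵥ d := by
    rw [dotProduct_mulVec, ← mulVec_transpose, hA.eq]
  have h2 : d ⬝ᵥ A *ᵥ x = A *ᵥ x ⬝ᵥ d := dotProduct_comm _ _
  rw [h, h2]
  ring

theorem quad_smul (A : Matrix (Fin n) (Fin n) ℝ) (c : ℝ) (x : Fin n → ℝ) :
    quad A (c • x) = c ^ 2 * quad A x := by
  unfold quad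
  rw [mulVec_smul, smul_dotProduct, dotProduct_smul, smul_eq_mul, smul_eq_mul]
  ring

theorem quad_neg (A : Matrix (Fin n) (Fin n) ℝ) (x : Fin n → ℝ) :
    quad A (-x) = quad A x := by
  have := quad_smul A (-1) x
  simpa using this

theorem quad_bound (A : Matrix (Fin n) (Fin n) ℝ) :
    ∃ K : ℝ, 0 ≤ K ∧ ∀ d : Fin n → ℝ, |quad A d| ≤ K * (d ⬝ᵥ d) := by
  refine ⟨∑ i, ∑ j, |A i j|, sum_nonneg fun i _ => sum_nonneg fun j _ => abs_nonneg _, fun d => ?_⟩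
  have h1 : quad A d = ∑ i, ∑ j, d i * (A i j * d j) := by
    unfold quad
    simp only [dotProduct, mulVec, mul_sum]
  have hle : ∀ i, d i ^ 2 ≤ d ⬝ᵥ d := by
    intro i
    have : d i ^ 2 = d i * d i := sq _
    rw [this]
    exact single_le_sum (f := fun i => d i * d i) (fun i _ => mul_self_nonneg _) (mem_univ i)
  rw [h1, sum_mul]
  refine (abs_sum_le_sum_abs _ _).trans (sum_le_sum fun i _ => ?_)
  rw [sum_mul]
  refine (abs_sum_le_sum_abs _ _).trans (sum_le_sum fun j _ => ?_)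
  have h2 : |d i * (A i j * d j)| = |A i j| * (|d i| * |d j|) := by
    rw [abs_mul, abs_mul]; ring
  rw [h2]
  apply mul_le_mul_of_nonneg_left _ (abs_nonneg _)
  have h3 : |d i| * |d j| ≤ (d i ^ 2 + d j ^ 2) / 2 := by
    have := sq_nonneg (|d i| - |d j|)
    have e1 := sq_abs (d i)
    have e2 := sq_abs (d j)
    nlinarith
  linarith [hle i, hle j]

/-- Second order sufficient condition in quantitative (Finsler) form. -/
theorem strict_of_certificate (A₀ A₁ A₂ : Matrix (Fin n) (Fin n) ℝ)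
    (s₀ : A₀.IsSymm) (s₁ : A₁.IsSymm) (s₂ : A₂.IsSymm) (x : Fin n → ℝ)
    (h1 : quad A₁ x = 1) (h2 : quad A₂ x = 1) (α β : ℝ) (hβ : 0 < β)
    (hx : A₀ *ᵥ x = α • (A₁ *ᵥ x) - β • (A₂ *ᵥ x)) (C c : ℝ) (hc : 0 < c) (hC : 0 < C)
    (hpd : ∀ d : Fin n → ℝ, c * (d ⬝ᵥ d) ≤ quad A₀ d - α * quad A₁ d + β * quad A₂ d +
      C * ((A₁ *ᵥ x ⬝ᵥ d) ^ 2 + (A₂ *ᵥ x ⬝ᵥ d) ^ 2)) :
    IsStrictLocalMinimizer A₀ A₁ A₂ x := by
  refine ⟨⟨h1, h2.le⟩, ?_⟩
  obtain ⟨K₁, hK₁, hq₁⟩ := quad_bound A₁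
  obtain ⟨K₂, hK₂, hq₂⟩ := quad_bound A₂
  -- smallness
  set K := K₁ ^ 2 + K₂ ^ 2 + 1 with hK
  have hKpos : 0 < K := by positivity
  have e1 : ∀ᶠ d in nhds (0 : Fin n → ℝ), C * (-(2 * (A₂ *ᵥ x ⬝ᵥ d)) - quad A₂ d) < β := by
    have hcont : Continuous fun d : Fin n → ℝ => C * (-(2 * (A₂ *ᵥ x ⬝ᵥ d)) - quad A₂ d) := by
      have := continuous_quad A₂
      fun_prop
    have : Filter.Tendsto (fun d : Fin n → ℝ => C * (-(2 * (A₂ *ᵥ x ⬝ᵥ d)) - quad A₂ d))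
        (nhds 0) (nhds 0) := by
      have h := hcont.tendsto 0
      simpa [quad] using h
    exact this.eventually_lt_const hβ
  have e2 : ∀ᶠ d in nhds (0 : Fin n → ℝ), C * K * (d ⬝ᵥ d) < c := by
    have hcont : Continuous fun d : Fin n → ℝ => C * K * (d ⬝ᵥ d) := by fun_prop
    have : Filter.Tendsto (fun d : Fin n → ℝ => C * K * (d ⬝ᵥ d)) (nhds 0) (nhds 0) := by
      have h := hcont.tendsto 0
      simpa using h
    exact this.eventually_lt_const hc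
  obtain ⟨ε, hε, hball⟩ := Metric.eventually_nhds_iff.1 (e1.and e2)
  refine ⟨ε, hε, fun y hy hy0 hyε => ?_⟩
  obtain ⟨hy1, hy2⟩ := hy
  set d := y - x with hd
  have hyx : y = x + d := by rw [hd]; abel
  obtain ⟨b1, b2⟩ := hball (y := d) (by simpa using hyε)
  have hdne : d ≠ 0 := norm_pos_iff.1 hy0
  have hN : 0 < d ⬝ᵥ d := by
    obtain ⟨i, hi⟩ := Function.ne_iff.1 hdne
    have hi' : d i ≠ 0 := hi
    refine sum_pos' (fun i _ => mul_self_nonneg _) ⟨i, mem_univ i, ?_⟩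
    exact mul_self_pos.2 hi'
  rw [hyx, quad_add A₁ s₁, h1] at hy1
  rw [hyx, quad_add A₂ s₂, h2] at hy2
  rw [hyx, quad_add A₀ s₀, hx, sub_dotProduct, smul_dotProduct, smul_dotProduct,
    smul_eq_mul, smul_eq_mul]
  have hp := hpd d
  have q1 := abs_le.1 (hq₁ d)
  have q2 := abs_le.1 (hq₂ d)
  set u := A₁ *ᵥ x ⬝ᵥ d with hu
  set w := A₂ *ᵥ x ⬝ᵥ d with hw
  set N := d ⬝ᵥ d with hNdef
  set a := quad A₁ d with ha
  set b := quad A₂ d with hb
  -- `u = -a/2`, `σ = -2w - b ≥ 0`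
  have hσ : 0 ≤ -(2 * w) - b := by linarith
  have hu2 : u ^ 2 ≤ K₁ ^ 2 * N ^ 2 / 4 := by
    have : u = -a / 2 := by linarith
    rw [this]
    have h3 : a ^ 2 ≤ (K₁ * N) ^ 2 := sq_le_sq' q1.1 q1.2
    nlinarith
  have hw2 : w ^ 2 ≤ (-(2 * w) - b) ^ 2 / 2 + K₂ ^ 2 * N ^ 2 / 2 := by
    have h3 : b ^ 2 ≤ (K₂ * N) ^ 2 := sq_le_sq' q2.1 q2.2
    have h4 : w = -((-(2 * w) - b) + b) / 2 := by ring
    have h5 : 4 * w ^ 2 = ((-(2 * w) - b) + b) ^ 2 := by ring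
    have h6 : ((-(2 * w) - b) + b) ^ 2 ≤ 2 * (-(2 * w) - b) ^ 2 + 2 * b ^ 2 := by
      have := sq_nonneg ((-(2 * w) - b) - b)
      linarith
    have h7 : (K₂ * N) ^ 2 = K₂ ^ 2 * N ^ 2 := by ring
    linarith
  have hCσ : C * (-(2 * w) - b) ^ 2 ≤ β * (-(2 * w) - b) := by
    have : C * (-(2 * w) - b) * (-(2 * w) - b) ≤ β * (-(2 * w) - b) :=
      mul_le_mul_of_nonneg_right b1.le hσ
    nlinarith
  have hCN : C * K * N * N < c * N := mul_lt_mul_of_pos_right b2 hN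
  have hKK : C * (K₁ ^ 2 * N ^ 2 / 4 + K₂ ^ 2 * N ^ 2 / 2) ≤ C * K * N * N := by
    have h7 : K₁ ^ 2 * N ^ 2 / 4 + K₂ ^ 2 * N ^ 2 / 2 ≤ (K₁ ^ 2 + K₂ ^ 2 + 1) * N ^ 2 := by
      have m1 := mul_nonneg (sq_nonneg K₁) (sq_nonneg N)
      have m2 := mul_nonneg (sq_nonneg K₂) (sq_nonneg N)
      have m3 := sq_nonneg N
      linarith
    have h8 := mul_le_mul_of_nonneg_left h7 hC.le
    rw [hK]
    linarith
  have hfin : C * (u ^ 2 + w ^ 2) ≤ C * (K₁ ^ 2 * N ^ 2 / 4 + K₂ ^ 2 * N ^ 2 / 2) +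
      C * (-(2 * w) - b) ^ 2 / 2 := by
    have := mul_le_mul_of_nonneg_left (add_le_add hu2 hw2) hC.le
    linarith
  have hβσ : 0 ≤ β * (-(2 * w) - b) := mul_nonneg hβ.le hσ
  have hα : α * (2 * u + a) = 0 := by
    have : 2 * u + a = 0 := by linarith
    rw [this, mul_zero]
  linarith

theorem strict_neg (A₀ A₁ A₂ : Matrix (Fin n) (Fin n) ℝ) (x : Fin n → ℝ)
    (h : IsStrictLocalMinimizer A₀ A₁ A₂ x) : IsStrictLocalMinimizer A₀ A₁ A₂ (-x) := by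
  obtain ⟨⟨h1, h2⟩, ε, hε, h3⟩ := h
  refine ⟨⟨by rw [quad_neg, h1], by rw [quad_neg]; exact h2⟩, ε, hε, fun y hy h4 h5 => ?_⟩
  have h6 : ‖-y - x‖ = ‖y - -x‖ := by
    rw [← norm_neg]
    congr 1
    abel
  have := h3 (-y) ⟨by rw [quad_neg]; exact hy.1, by rw [quad_neg]; exact hy.2⟩
    (by rw [h6]; exact h4) (by rw [h6]; exact h5)
  rw [quad_neg] at this ⊢
  exact this

end general

/-- objective -/
noncomputable def M₀ : Matrix (Fin 4) (Fin 4) ℝ :=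
  !![-1, -19/20, 51/4, -18; -19/20, 3, 13/16, 0; 51/4, 13/16, 2, 5; -18, 0, 5, 11]
/-- equality constraint -/
noncomputable def M₁ : Matrix (Fin 4) (Fin 4) ℝ :=
  !![1, -1/4, 3/4, 0; -1/4, 1, 1/4, 0; 3/4, 1/4, 1, 0; 0, 0, 0, 1]
/-- inequality constraint -/
noncomputable def M₂ : Matrix (Fin 4) (Fin 4) ℝ :=
  !![1, -1/20, -3/2, 3; -1/20, 1, 3/16, 0; -3/2, 3/16, 1, -1; 3, 0, -1, -1]

theorem symm₀ : M₀.IsSymm := by
  unfold M₀; ext i j; fin_cases i <;> fin_cases j <;> rfl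
theorem symm₁ : M₁.IsSymm := by
  unfold M₁; ext i j; fin_cases i <;> fin_cases j <;> rfl
theorem symm₂ : M₂.IsSymm := by
  unfold M₂; ext i j; fin_cases i <;> fin_cases j <;> rfl

theorem quad_M0 (d : Fin 4 → ℝ) : quad M₀ d =
    (-1) * d 0 * d 0 + (-19/10) * d 0 * d 1 + (51/2) * d 0 * d 2 + (-36) * d 0 * d 3 + (3) * d 1 * d 1 + (13/8) * d 1 * d 2 + (2) * d 2 * d 2 + (10) * d 2 * d 3 + (11) * d 3 * d 3 := by
  simp only [quad, M₀, dotProduct, mulVec, Fin.sum_univ_four, of_apply, cons_val', cons_val_zero,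
    cons_val_one, cons_val_two, cons_val_three, head_cons, tail_cons, empty_val', cons_val_fin_one,
    head_fin_const]
  simp
  ring

theorem quad_M1 (d : Fin 4 → ℝ) : quad M₁ d =
    (1) * d 0 * d 0 + (-1/2) * d 0 * d 1 + (3/2) * d 0 * d 2 + (1) * d 1 * d 1 + (1/2) * d 1 * d 2 + (1) * d 2 * d 2 + (1) * d 3 * d 3 := by
  simp only [quad, M₁, dotProduct, mulVec, Fin.sum_univ_four, of_apply, cons_val', cons_val_zero,
    cons_val_one, cons_val_two, cons_val_three, head_cons, tail_cons, empty_val', cons_val_fin_one,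
    head_fin_const]
  simp
  ring

theorem quad_M2 (d : Fin 4 → ℝ) : quad M₂ d =
    (1) * d 0 * d 0 + (-1/10) * d 0 * d 1 + (-3) * d 0 * d 2 + (6) * d 0 * d 3 + (1) * d 1 * d 1 + (3/8) * d 1 * d 2 + (1) * d 2 * d 2 + (-2) * d 2 * d 3 + (-1) * d 3 * d 3 := by
  simp only [quad, M₂, dotProduct, mulVec, Fin.sum_univ_four, of_apply, cons_val', cons_val_zero,
    cons_val_one, cons_val_two, cons_val_three, head_cons, tail_cons, empty_val', cons_val_fin_one,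
    head_fin_const]
  simp
  ring

theorem col0_0 : M₀ *ᵥ (![1, 0, 0, 0] : Fin 4 → ℝ) = ![-1, -19/20, 51/4, -18] := by
  ext i; fin_cases i <;> simp [M₀, mulVec, dotProduct, Fin.sum_univ_four]

theorem col1_0 : M₁ *ᵥ (![1, 0, 0, 0] : Fin 4 → ℝ) = ![1, -1/4, 3/4, 0] := by
  ext i; fin_cases i <;> simp [M₁, mulVec, dotProduct, Fin.sum_univ_four]

theorem col2_0 : M₂ *ᵥ (![1, 0, 0, 0] : Fin 4 → ℝ) = ![1, -1/20, -3/2, 3] := by
  ext i; fin_cases i <;> simp [M₂, mulVec, dotProduct, Fin.sum_univ_four]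

theorem strict_0 : IsStrictLocalMinimizer M₀ M₁ M₂ ![1, 0, 0, 0] := by
  refine strict_of_certificate M₀ M₁ M₂ symm₀ symm₁ symm₂ _ ?_ ?_ (5) (6) (by norm_num) ?_ (1) (1/4) (by norm_num)
    (by norm_num) ?_
  · rw [quad_M1]; simp
  · rw [quad_M2]; simp
  · rw [col0_0, col1_0, col2_0]; ext i; fin_cases i <;> simp <;> norm_num
  · intro d
    rw [col1_0, col2_0, quad_M0, quad_M1, quad_M2]
    simp only [dotProduct, Fin.sum_univ_four, cons_val_zero, cons_val_one, cons_val_two, cons_val_three,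
      head_cons, tail_cons]
    have p0 : 0 ≤ (7/4) * ((1) * d 0 + (-6/35) * d 1 + (-3/7) * d 2 + (12/7) * d 3) ^ 2 := by positivity
    have p1 : 0 ≤ (5269/1400) * ((1) * d 1 + (625/5269) * d 2 + (510/5269) * d 3) ^ 2 := by positivity
    have p2 : 0 ≤ (437379/84304) * ((1) * d 2 + (-358924/437379) * d 3) ^ 2 := by positivity
    have p3 : 0 ≤ (136595/1749516) * ((1) * d 3) ^ 2 := by positivity
    nlinarith [p0, p1, p2, p3]

theorem col0_1 : M₀ *ᵥ (![0, 1, 0, 0] : Fin 4 → ℝ) = ![-19/20, 3, 13/16, 0] := by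
  ext i; fin_cases i <;> simp [M₀, mulVec, dotProduct, Fin.sum_univ_four]

theorem col1_1 : M₁ *ᵥ (![0, 1, 0, 0] : Fin 4 → ℝ) = ![-1/4, 1, 1/4, 0] := by
  ext i; fin_cases i <;> simp [M₁, mulVec, dotProduct, Fin.sum_univ_four]

theorem col2_1 : M₂ *ᵥ (![0, 1, 0, 0] : Fin 4 → ℝ) = ![-1/20, 1, 3/16, 0] := by
  ext i; fin_cases i <;> simp [M₂, mulVec, dotProduct, Fin.sum_univ_four]

theorem strict_1 : IsStrictLocalMinimizer M₀ M₁ M₂ ![0, 1, 0, 0] := by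
  refine strict_of_certificate M₀ M₁ M₂ symm₀ symm₁ symm₂ _ ?_ ?_ (4) (1) (by norm_num) ?_ (5000) (1) (by norm_num)
    (by norm_num) ?_
  · rw [quad_M1]; simp
  · rw [quad_M2]; simp
  · rw [col0_1, col1_1, col2_1]; ext i; fin_cases i <;> simp <;> norm_num
  · intro d
    rw [col1_1, col2_1, quad_M0, quad_M1, quad_M2]
    simp only [dotProduct, Fin.sum_univ_four, cons_val_zero, cons_val_one, cons_val_two, cons_val_three,
      head_cons, tail_cons]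
    have p0 : 0 ≤ (320) * ((1) * d 0 + (-75/16) * d 1 + (-2809/2560) * d 2 + (-3/64) * d 3) ^ 2 := by positivity
    have p1 : 0 ≤ (11871/4) * ((1) * d 1 + (69325/379872) * d 2 + (-125/5276) * d 3) ^ 2 := by positivity
    have p2 : 0 ≤ (131521441/60779520) * ((1) * d 2 + (22655160/131521441) * d 3) ^ 2 := by positivity
    have p3 : 0 ≤ (337590695/131521441) * ((1) * d 3) ^ 2 := by positivity
    nlinarith [p0, p1, p2, p3]

theorem col0_2 : M₀ *ᵥ (![0, 0, 1, 0] : Fin 4 → ℝ) = ![51/4, 13/16, 2, 5] := by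
  ext i; fin_cases i <;> simp [M₀, mulVec, dotProduct, Fin.sum_univ_four]

theorem col1_2 : M₁ *ᵥ (![0, 0, 1, 0] : Fin 4 → ℝ) = ![3/4, 1/4, 1, 0] := by
  ext i; fin_cases i <;> simp [M₁, mulVec, dotProduct, Fin.sum_univ_four]

theorem col2_2 : M₂ *ᵥ (![0, 0, 1, 0] : Fin 4 → ℝ) = ![-3/2, 3/16, 1, -1] := by
  ext i; fin_cases i <;> simp [M₂, mulVec, dotProduct, Fin.sum_univ_four]

theorem strict_2 : IsStrictLocalMinimizer M₀ M₁ M₂ ![0, 0, 1, 0] := by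
  refine strict_of_certificate M₀ M₁ M₂ symm₀ symm₁ symm₂ _ ?_ ?_ (7) (5) (by norm_num) ?_ (5) (1/2) (by norm_num)
    (by norm_num) ?_
  · rw [quad_M1]; simp
  · rw [quad_M2]; simp
  · rw [col0_2, col1_2, col2_2]; ext i; fin_cases i <;> simp <;> norm_num
  · intro d
    rw [col1_2, col2_2, quad_M0, quad_M1, quad_M2]
    simp only [dotProduct, Fin.sum_univ_four, cons_val_zero, cons_val_one, cons_val_two, cons_val_three,
      head_cons, tail_cons]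
    have p0 : 0 ≤ (169/16) * ((1) * d 0 + (1/130) * d 1 + (-60/169) * d 2 + (72/169) * d 3) ^ 2 := by positivity
    have p1 : 0 ≤ (6321/6400) * ((1) * d 1 + (184400/82173) * d 2 + (-26960/27391) * d 3) ^ 2 := by positivity
    have p2 : 0 ≤ (6826231/2136498) * ((1) * d 2 + (-2608440/6826231) * d 3) ^ 2 := by positivity
    have p3 : 0 ≤ (2177467/13652462) * ((1) * d 3) ^ 2 := by positivity
    nlinarith [p0, p1, p2, p3]


/-- a feasible point with objective value below `-1` -/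
theorem better : ∃ y ∈ feasible M₁ M₂, quad M₀ y < -1 := by
  have h0 : quad M₀ ![3, -1, 1, 7] = _ := quad_M0 _
  have h1 : quad M₁ ![3, -1, 1, 7] = _ := quad_M1 _
  have h2 : quad M₂ ![3, -1, 1, 7] = _ := quad_M2 _
  simp only [cons_val_zero, cons_val_one, cons_val_two, cons_val_three,
      head_cons, tail_cons] at h0 h1 h2
  norm_num at h0 h1 h2
  have hc : 0 < quad M₁ ![3, -1, 1, 7] := by rw [h1]; norm_num
  have hs : ((Real.sqrt (quad M₁ ![3, -1, 1, 7]))⁻¹) ^ 2 = (quad M₁ ![3, -1, 1, 7])⁻¹ := by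
    rw [inv_pow, Real.sq_sqrt hc.le]
  refine ⟨(Real.sqrt (quad M₁ ![3, -1, 1, 7]))⁻¹ • ![3, -1, 1, 7], ⟨?_, ?_⟩, ?_⟩
  · rw [quad_smul, hs, inv_mul_cancel₀ hc.ne']
  · rw [quad_smul, hs, h1, h2]; norm_num
  · rw [quad_smul, hs, h1, h0]; norm_num

theorem nonGlobal_of (x : Fin 4 → ℝ) (h : -1 ≤ quad M₀ x) : IsNonGlobal M₀ M₁ M₂ x := by
  obtain ⟨y, hy, h2⟩ := better
  exact ⟨y, hy, h2.trans_le h⟩

/-- the three axes -/
def ax : Fin 3 → Fin 4 → ℝ := ![![1, 0, 0, 0], ![0, 1, 0, 0], ![0, 0, 1, 0]]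

theorem strict_ax (m : Fin 3) : IsStrictLocalMinimizer M₀ M₁ M₂ (ax m) := by
  fin_cases m
  · exact strict_0
  · exact strict_1
  · exact strict_2

theorem nonGlobal_ax (m : Fin 3) : IsNonGlobal M₀ M₁ M₂ (ax m) := by
  apply nonGlobal_of
  fin_cases m <;> simp [ax, quad_M0] <;> norm_num

theorem result : ∃ A₀ A₁ A₂ : Matrix (Fin 4) (Fin 4) ℝ,
    A₀.IsSymm ∧ A₁.IsSymm ∧ A₂.IsSymm ∧
    ∃ S : Finset (Fin 4 → ℝ), S.card = 6 ∧
      ∀ x ∈ S, IsStrictLocalMinimizer A₀ A₁ A₂ x ∧ IsNonGlobal A₀ A₁ A₂ x := by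
  classical
  refine ⟨M₀, M₁, M₂, symm₀, symm₁, symm₂,
    (univ : Finset (Fin 3 × Bool)).image (fun p => if p.2 then ax p.1 else -ax p.1), ?_, ?_⟩
  · rw [card_image_of_injective]
    · simp
    · rintro ⟨i, a⟩ ⟨j, b⟩ h
      have h0 := congrFun h 0
      have h1 := congrFun h 1
      have h2 := congrFun h 2
      fin_cases i <;> fin_cases j <;> cases a <;> cases b <;>
        simp [ax] at h0 h1 h2 ⊢ <;> linarith
  · intro x hx
    simp only [mem_image, mem_univ, true_and, Prod.exists] at hx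
    obtain ⟨i, a, rfl⟩ := hx
    cases a
    · simp only [Bool.false_eq_true, if_false]
      refine ⟨strict_neg _ _ _ _ (strict_ax i), ?_⟩
      obtain ⟨y, hy, h⟩ := nonGlobal_ax i
      exact ⟨y, hy, by rw [quad_neg]; exact h⟩
    · simp only [if_true]
      exact ⟨strict_ax i, nonGlobal_ax i⟩

end Pool.Agent.Results.MP_4a3f67_an.SixMinimizers
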